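import Pool.Agent.H62.HIL.Tg
import Pool.Agent.H62.HIL.Norm

/-!
# Row DC2 of sfh_modules: the Euler derivation of the field of the curve
-/

set_option autoImplicit false

namespace Pool.Agent.H49.SFH

open MvPolynomial SC Pool.Agent.H27.LV Pool.Agent.H92.SF Pool.Agent.H3.SF Pool.Agent.H62.HIL

/-- a derivation of the fraction field of an image, from a derivation which preserves the kernel -/
theorem exists_der {k B LL : Type} [Field k] [CommRing B] [Algebra k B] [Field LL] [Algebra k LL]
    (D0 : Derivation k B B) (π : B →ₐ[k] LL) (hk : ∀ b, π b = 0 → π (D0 b) = 0)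
    (hs : ∀ z : LL, ∃ b c : B, π c ≠ 0 ∧ z * π c = π b) :
    ∃ EL : Derivation k LL LL, ∀ b, EL (π b) = π (D0 b) := by
  choose nb nc hc hz using hs
  set f : LL → LL := fun z => (π (D0 (nb z)) - z * π (D0 (nc z))) / π (nc z) with hf
  have key : ∀ z b c, π c ≠ 0 → z * π c = π b → f z * π c = π (D0 b) - z * π (D0 c) := by
    intro z b c hc0 hzc
    have h1 : π (b * nc z - nb z * c) = 0 := by
      rw [map_sub, map_mul, map_mul, ← hzc, ← hz z]
      ring
    have h2 := hk _ h1
    rw [map_sub, D0.leibniz, D0.leibniz] at h2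
    simp only [smul_eq_mul, map_sub, map_add, map_mul] at h2
    rw [← hzc, ← hz z] at h2
    have h3 : (π (D0 b) - z * π (D0 c)) * π (nc z) =
        (π (D0 (nb z)) - z * π (D0 (nc z))) * π c := by linear_combination h2
    have h4 := hc z
    simp only [hf]
    field_simp
    linear_combination -h3
  have hadd : ∀ x y, f (x + y) = f x + f y := by
    intro x y
    have h1 := key (x + y) (nb x * nc y + nb y * nc x) (nc x * nc y)
      (by rw [map_mul]; exact mul_ne_zero (hc x) (hc y)) (by
        rw [map_add, map_mul, map_mul, map_mul, ← hz x, ← hz y]; ring)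
    have h2 := key x _ _ (hc x) (hz x)
    have h3 := key y _ _ (hc y) (hz y)
    rw [map_add, D0.leibniz, D0.leibniz, D0.leibniz] at h1
    simp only [smul_eq_mul, map_add, map_mul] at h1
    rw [← hz x, ← hz y] at h1
    have h4 := mul_ne_zero (hc x) (hc y)
    refine mul_right_cancel₀ h4 ?_
    linear_combination h1 - π (nc y) * h2 - π (nc x) * h3
  have hsm : ∀ (r : k) (x : LL), f (r • x) = r • f x := by
    intro r x
    have h1 := key (r • x) (r • nb x) (nc x) (hc x) (by
      rw [map_smul, ← hz x, smul_mul_assoc])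
    have h2 := key x _ _ (hc x) (hz x)
    refine mul_right_cancel₀ (hc x) ?_
    rw [h1, smul_mul_assoc r (f x), h2, D0.map_smul, map_smul, smul_mul_assoc, smul_sub]
  have hl : ∀ x y, f (x * y) = x • f y + y • f x := by
    intro x y
    have h1 := key (x * y) (nb x * nb y) (nc x * nc y)
      (by rw [map_mul]; exact mul_ne_zero (hc x) (hc y)) (by
        rw [map_mul, map_mul, ← hz x, ← hz y]; ring)
    have h2 := key x _ _ (hc x) (hz x)
    have h3 := key y _ _ (hc y) (hz y)
    rw [D0.leibniz, D0.leibniz] at h1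
    simp only [smul_eq_mul, map_add, map_mul] at h1
    rw [← hz x, ← hz y] at h1
    have h4 := mul_ne_zero (hc x) (hc y)
    refine mul_right_cancel₀ h4 ?_
    simp only [smul_eq_mul]
    linear_combination h1 - y * π (nc y) * h2 - x * π (nc x) * h3
  refine ⟨Derivation.mk' ⟨⟨f, hadd⟩, hsm⟩ hl, fun b => ?_⟩
  have h1 := key (π b) b 1 (by rw [map_one]; exact one_ne_zero) (by rw [map_one, mul_one])
  rw [map_one, mul_one, D0.map_one_eq_zero, map_zero, mul_zero, sub_zero] at h1
  exact h1

theorem pf_DC2 (h1 : T_SF1) : T_DC2 := by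
  intro k F _ _ _ _ _ u dd δ j0 c0 J hS m G hm hG LL _ _ π hπ
  have hit := (h1 k F u dd δ j0 c0 J hS).2.2.2.2.1
  have hL : ∀ a b : Bb k u, (eu u dd) ((a : F) * (b : F)) =
      (a : F) * eu u dd (b : F) + (b : F) * eu u dd (a : F) := by
    intro a b
    rw [Derivation.leibniz]
    rfl
  set D0 : Derivation k (Bb k u) (Bb k u) := Derivation.mk'
    { toFun := fun b => ⟨eu u dd (b : F), hit _ b.2⟩
      map_add' := fun a b => Subtype.ext (map_add (eu u dd) (a : F) (b : F))
      map_smul' := fun r b => Subtype.ext ((eu u dd).map_smul r (b : F)) }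
    (fun a b => Subtype.ext (hL a b)) with hD0
  have hD : ∀ b : Bb k u, ((D0 b : Bb k u) : F) = eu u dd (b : F) := fun b => rfl
  obtain ⟨EL, hEL⟩ := exists_der D0 π (fun b hb => by
    rw [hπ.ker] at hb ⊢
    rw [hD]
    have h2 : (b : F) = G * ((b : F) / G) := (mul_div_cancel₀ _ hG.ne).symm
    have h3 : eu u dd (b : F) / G = (m : F) * ((b : F) / G) + eu u dd ((b : F) / G) := by
      have h4 := hG.hom
      unfold Hm at h4
      have h5 : eu u dd (b : F) = G * eu u dd ((b : F) / G) + ((b : F) / G) * eu u dd G := by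
        conv_lhs => rw [h2]
        rw [Derivation.leibniz]
        rfl
      rw [h5, h4]
      have := hG.ne
      push_cast
      field_simp
      ring
    rw [h3]
    exact (Bb k u).add_mem ((Bb k u).mul_mem (natCast_mem (Bb k u) m) hb) (hit _ hb)) hπ.sur
  refine ⟨EL, fun b b' hb => ?_⟩
  rw [hEL b]
  exact congrArg π (Subtype.ext ((hD b).trans hb.symm))

end Pool.Agent.H49.SFH
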